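import Pool.Agent.SSF.Stmts

/-!
# SSF, row SLM, with proof (helper9)
-/

set_option autoImplicit false

open Set Topology
open scoped BigOperators

namespace Pool.Agent.SSF.H9

open Pool.Agent.LSG Pool.Agent.LPR Pool.Agent.SSF

/-- distinct elements of infinitely many infinite sets -/
theorem choice {M : Type} (A : ℕ → Set M) (hA : ∀ i, (A i).Infinite) :
    ∃ f : ℕ → M, (∀ i, f i ∈ A i) ∧ Function.Injective f := by
  classical
  have h1 : ∀ (i : ℕ) (S : Finset M), ∃ x, x ∈ A i ∧ x ∉ S := by
    intro i S
    obtain ⟨x, hx, hxS⟩ := (hA i).exists_notMem_finset S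
    exact ⟨x, hx, hxS⟩
  choose pick hp1 hp2 using h1
  let F : ℕ → Finset M := fun i => Nat.rec ∅ (fun i S => insert (pick i S) S) i
  have hF1 : ∀ i, F (i + 1) = insert (pick i (F i)) (F i) := fun _ => rfl
  have hmono : Monotone F := monotone_nat_of_le_succ fun i => by
    rw [hF1]
    exact Finset.subset_insert _ _
  have hmem : ∀ i j, i < j → pick i (F i) ∈ F j := fun i j hij => by
    apply hmono hij
    change pick i (F i) ∈ F (i + 1)
    rw [hF1]
    exact Finset.mem_insert_self _ _
  refine ⟨fun i => pick i (F i), fun i => hp1 i (F i), fun i j hij => ?_⟩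
  have hij' : pick i (F i) = pick j (F j) := hij
  by_contra hne
  rcases lt_or_gt_of_ne hne with h | h
  · have h2 := hmem i j h
    rw [hij'] at h2
    exact hp2 j (F j) h2
  · have h2 := hmem j i h
    rw [← hij'] at h2
    exact hp2 i (F i) h2

section
variable {M : Type} [MetricSpace M] [Nontrivial M]

theorem near (hS : Sim M) (p : M) (ε : ℝ) (hε : 0 < ε) : ∃ q, q ≠ p ∧ dist q p < ε := by
  by_contra hno
  push Not at hno
  have h1 : Metric.ball p ε = {p} := by
    ext y
    constructor
    · intro hy
      by_contra hyp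
      exact absurd (Metric.mem_ball.mp hy) (not_lt.mpr (hno y hyp))
    · intro hy
      rw [Set.mem_singleton_iff] at hy
      rw [hy]
      exact Metric.mem_ball_self hε
  obtain ⟨η, -, hi, hu⟩ := hS (Metric.ball p ε) Metric.isOpen_ball ⟨p, Metric.mem_ball_self hε⟩
  obtain ⟨x, y, hxy⟩ := exists_pair_ne M
  apply hxy
  apply hi
  have h2 := hu x
  have h3 := hu y
  rw [h1, Set.mem_singleton_iff] at h2 h3
  rw [h2, h3]

theorem infin (hS : Sim M) (p : M) (ε : ℝ) (hε : 0 < ε) : (Metric.ball p ε).Infinite := by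
  have : (𝓝[≠] p).NeBot := by
    rw [← mem_closure_iff_nhdsWithin_neBot, Metric.mem_closure_iff]
    intro ε' hε'
    obtain ⟨q, hq, hd⟩ := near hS p ε' hε'
    exact ⟨q, hq, by rw [dist_comm]; exact hd⟩
  exact infinite_of_mem_nhds p (Metric.ball_mem_nhds p hε)

/-- disjoint copies which converge to `p` -/
theorem copies (hS : Sim M) (p : M) (r : ℝ) (hr : 0 < r) : ∃ η : ℕ → M → M,
    (∀ n, Continuous (η n)) ∧ (∀ n n' u u', η n u = η n' u' → n = n' ∧ u = u') ∧
    (∀ n u, η n u ≠ p) ∧ ∀ n u, dist (η n u) p ≤ r / (2 * ((n : ℝ) + 1)) := by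
  have step : ∀ (n : ℕ) (δ : {δ : ℝ // 0 < δ}), ∃ (δ' : {δ : ℝ // 0 < δ}) (η : M → M),
      Continuous η ∧ Function.Injective η ∧ ∀ u, δ'.1 < dist (η u) p ∧
        dist (η u) p < min δ.1 (r / (2 * ((n : ℝ) + 1))) := by
    intro n δ
    have hpos : 0 < min δ.1 (r / (2 * ((n : ℝ) + 1))) := lt_min δ.2 (by positivity)
    obtain ⟨q, hq, hd⟩ := near hS p _ hpos
    have hqp : 0 < dist q p := dist_pos.mpr hq
    have ho : IsOpen {t : M | dist q p / 2 < dist t p ∧
        dist t p < min δ.1 (r / (2 * ((n : ℝ) + 1)))} := by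
      apply IsOpen.inter
      · exact isOpen_lt continuous_const (continuous_id.dist continuous_const)
      · exact isOpen_lt (continuous_id.dist continuous_const) continuous_const
    obtain ⟨η, h1, h2, h3⟩ := hS _ ho ⟨q, by
      constructor
      · linarith
      · exact hd⟩
    exact ⟨⟨dist q p / 2, by positivity⟩, η, h1, h2, h3⟩
  choose nx et h1 h2 h3 using step
  let δ : ℕ → {δ : ℝ // 0 < δ} := fun n => Nat.rec ⟨r, hr⟩ (fun n d => nx n d) n
  have hδ : ∀ n, δ (n + 1) = nx n (δ n) := fun _ => rfl
  have hlo : ∀ n u, (δ (n + 1)).1 < dist (et n (δ n) u) p := fun n u => (h3 n (δ n) u).1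
  have hup : ∀ n u, dist (et n (δ n) u) p < (δ n).1 := fun n u =>
    lt_of_lt_of_le (h3 n (δ n) u).2 (min_le_left _ _)
  have hanti : Antitone fun n => (δ n).1 := by
    apply antitone_nat_of_succ_le
    intro n
    have u : M := p
    exact ((hlo n u).trans (hup n u)).le
  have hne : ∀ n n' u u', n < n' → et n (δ n) u ≠ et n' (δ n') u' := by
    intro n n' u u' hn he
    have a1 := hlo n u
    have a2 := hup n' u'
    have a3 : (δ n').1 ≤ (δ (n + 1)).1 := hanti hn
    rw [he] at a1
    linarith
  refine ⟨fun n => et n (δ n), fun n => h1 n (δ n), ?_, ?_, ?_⟩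
  · intro n n' u u' he
    rcases lt_trichotomy n n' with h | h | h
    · exact absurd he (hne n n' u u' h)
    · subst h
      exact ⟨rfl, h2 n (δ n) he⟩
    · exact absurd he.symm (hne n' n u' u h)
  · intro n u he
    have a1 := hlo n u
    have he' : et n (δ n) u = p := he
    rw [he', dist_self] at a1
    exact absurd a1 (not_lt.mpr (δ (n + 1)).2.le)
  · intro n u
    exact (lt_of_lt_of_le (h3 n (δ n) u).2 (min_le_right _ _)).le

end

/-- a radius which is small compared to finitely many positive numbers -/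
theorem radius (r₀ : ℝ) (hr : 0 < r₀) (T : Finset (ℕ × ℕ)) (d : ℕ × ℕ → ℝ)
    (hd : ∀ q ∈ T, 0 < d q) : ∃ r, 0 < r ∧ r ≤ r₀ ∧ ∀ q ∈ T, 3 * r ≤ d q := by
  classical
  induction T using Finset.induction_on with
  | empty => exact ⟨r₀, hr, le_rfl, fun q hq => absurd hq (Finset.notMem_empty q)⟩
  | insert q T hq ih =>
    obtain ⟨r, h1, h2, h3⟩ := ih fun q' hq' => hd q' (Finset.mem_insert_of_mem hq')
    have h4 := hd q (Finset.mem_insert_self q T)
    refine ⟨min r (d q / 3), lt_min h1 (by positivity), (min_le_left _ _).trans h2,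
      fun q' hq' => ?_⟩
    rcases Finset.mem_insert.mp hq' with h | h
    · subst h
      have := min_le_right r (d q' / 3)
      linarith
    · have := min_le_left r (d q / 3)
      have := h3 q' h
      linarith

theorem slm : SlmStmt := by
  classical
  intro M _ _ _ hS K c
  -- the points
  obtain ⟨f, hf, hfi⟩ := choice
    (fun i => Metric.ball (c (Nat.unpair i).1 (Nat.unpair i).2)
      ((1 / 2 : ℝ) ^ ((Nat.unpair i).1 + 6)))
    (fun i => infin hS _ _ (by positivity))
  let p : ℕ → ℕ → M := fun m k => f (Nat.pair m k)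
  have hpc : ∀ m k, dist (p m k) (c m k) < (1 / 2 : ℝ) ^ (m + 6) := fun m k => by
    have h1 := hf (Nat.pair m k)
    simp only [Nat.unpair_pair] at h1
    exact Metric.mem_ball.mp h1
  have hpi : ∀ m k m' k', p m k = p m' k' → m = m' ∧ k = k' := fun m k m' k' h =>
    Nat.pair_eq_pair.mp (hfi h)
  -- the radii
  have hrad : ∀ m k : ℕ, ∃ r, 0 < r ∧ r ≤ (1 / 2 : ℝ) ^ (m + 6) ∧
      ∀ m' k', m' ≤ m + 7 → k' < K m' → (m', k') ≠ (m, k) →
        3 * r ≤ dist (p m k) (p m' k') := by
    intro m k
    obtain ⟨r, h1, h2, h3⟩ := radius ((1 / 2 : ℝ) ^ (m + 6)) (by positivity)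
      (((Finset.range (m + 8)).biUnion fun m' =>
        (Finset.range (K m')).image fun k' => (m', k')).filter fun q => q ≠ (m, k))
      (fun q => dist (p m k) (p q.1 q.2)) (by
        intro q hq
        have hne := (Finset.mem_filter.mp hq).2
        apply dist_pos.mpr
        intro he
        obtain ⟨e1, e2⟩ := hpi _ _ _ _ he
        exact hne (by rw [e1, e2]))
    refine ⟨r, h1, h2, fun m' k' hm hk hne => h3 (m', k') ?_⟩
    rw [Finset.mem_filter, Finset.mem_biUnion]
    exact ⟨⟨m', Finset.mem_range.mpr (by omega),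
      Finset.mem_image_of_mem _ (Finset.mem_range.mpr hk)⟩, hne⟩
  choose r hr0 hr1 hr2 using hrad
  have hcop : ∀ m k : ℕ, ∃ η : ℕ → M → M, (∀ n, Continuous (η n)) ∧
      (∀ n n' u u', η n u = η n' u' → n = n' ∧ u = u') ∧ (∀ n u, η n u ≠ p m k) ∧
      ∀ n u, dist (η n u) (p m k) ≤ r m k / (2 * ((n : ℝ) + 1)) := fun m k =>
    copies hS (p m k) (r m k) (hr0 m k)
  choose η e1 e2 e3 e4 using hcop
  let w₀ : ℕ → ℕ → M → ℝ := fun m k t =>
    if k < K m then max 0 (min 1 (2 - 2 * dist t (p m k) / r m k)) else 0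
  have hw₀ : ∀ m k, Continuous (w₀ m k) := by
    intro m k
    by_cases hk : k < K m
    · simp only [w₀, if_pos hk]
      apply continuous_const.max
      apply continuous_const.min
      apply continuous_const.sub
      exact (continuous_const.mul (continuous_id.dist continuous_const)).div_const _
    · simp only [w₀, if_neg hk]
      exact continuous_const
  let w : ℕ → ℕ → C(M, ℝ) := fun m k => ⟨w₀ m k, hw₀ m k⟩
  have hw : ∀ m k t, w m k t = w₀ m k t := fun _ _ _ => rfl
  have hwne : ∀ m k t, w m k t ≠ 0 → k < K m ∧ dist t (p m k) < r m k := by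
    intro m k t h
    rw [hw] at h
    by_cases hk : k < K m
    · refine ⟨hk, ?_⟩
      simp only [w₀, if_pos hk] at h
      by_contra hd
      push Not at hd
      apply h
      apply max_eq_left
      apply (min_le_right _ _).trans
      have h1 : 1 ≤ dist t (p m k) / r m k := (one_le_div (hr0 m k)).mpr hd
      rw [mul_div_assoc]
      linarith
    · simp only [w₀, if_neg hk] at h
      exact absurd rfl h
  have hwone : ∀ m k t, k < K m → dist t (p m k) ≤ r m k / 2 → w m k t = 1 := by
    intro m k t hk hd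
    rw [hw]
    simp only [w₀, if_pos hk]
    have h1 : dist t (p m k) / r m k ≤ 1 / 2 := by
      rw [div_le_iff₀ (hr0 m k)]
      linarith
    have h2 : (1 : ℝ) ≤ 2 - 2 * dist t (p m k) / r m k := by
      rw [mul_div_assoc]
      linarith
    rw [min_eq_left h2]
    exact max_eq_right zero_le_one
  refine ⟨p, η, w, ?_⟩
  exact
    { cont := fun m k n => e1 m k n
      inj := fun m k n n' u u' h => e2 m k n n' u u' h
      ne := fun m k n u => e3 m k n u
      conv := fun m k n u => by
        refine (e4 m k n u).trans ?_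
        have hn : (0 : ℝ) < (n : ℝ) + 1 := by positivity
        rw [div_le_div_iff₀ (by positivity) hn]
        have h1 := hr1 m k
        have h2 := hr0 m k
        nlinarith [mul_le_mul_of_nonneg_right h1 hn.le, mul_pos h2 hn]
      w01 := fun m k t => by
        rw [hw]
        by_cases hk : k < K m
        · simp only [w₀, if_pos hk]
          exact ⟨le_max_left _ _, max_le zero_le_one (min_le_left _ _)⟩
        · simp only [w₀, if_neg hk]
          exact ⟨le_rfl, zero_le_one⟩
      onep := fun m k hk => hwone m k _ hk (by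
        rw [dist_self]
        have := hr0 m k
        linarith)
      one := fun m k n u hk => hwone m k _ hk (by
        refine (e4 m k n u).trans ?_
        have h2 := hr0 m k
        apply div_le_div_of_nonneg_left h2.le (by norm_num)
        have : (0 : ℝ) ≤ n := Nat.cast_nonneg n
        linarith)
      supp := fun m k t h => by
        obtain ⟨hk, hd⟩ := hwne m k t h
        refine ⟨hk, ?_⟩
        have h1 := dist_triangle t (p m k) (c m k)
        have h2 := hpc m k
        have h3 := hr1 m k
        have h4 : (1 / 2 : ℝ) ^ (m + 5) = 2 * (1 / 2 : ℝ) ^ (m + 6) := by ring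
        rw [h4]
        linarith
      sep := fun m k m' k' t hm hm' h h' => by
        obtain ⟨hk, hd⟩ := hwne m k t h
        obtain ⟨hk', hd'⟩ := hwne m' k' t h'
        by_contra hne
        have hne1 : (m', k') ≠ (m, k) := fun he => hne ⟨(Prod.mk.inj he).1.symm,
          (Prod.mk.inj he).2.symm⟩
        have a1 := hr2 m k m' k' (by omega) hk' hne1
        have a2 := hr2 m' k' m k (by omega) hk (Ne.symm hne1)
        have a3 := dist_triangle (p m k) t (p m' k')
        rw [dist_comm (p m k) t] at a3
        rw [dist_comm (p m' k') (p m k)] at a2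
        have a4 : 0 ≤ dist (p m k) (p m' k') := dist_nonneg
        linarith }

end Pool.Agent.SSF.H9
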